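import Mathlib
import Pool.Agent.TH69.OmB

/-!
# Bounded normal series with factors of prime power exponent

For the admissible exponents `n` of the theorem `TwoGenerators` (all odd `n < 11025`, twice these
numbers, and many multiples of large powers of `2`), which says that two generators decide local
finiteness, the structure found there is uniform.  Let `G` have exponent `n`, let its two-generator
subgroups be finite, of order at most `c`, and soluble if `n` has more than two prime divisors.

* `G` has a normal series of length `l` whose factors have exponents dividing prime powers that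
  divide `n`, where `l` depends on `n` and `c` only; `G` may be infinite, and the prime powers
  need not belong to `𝓛`.
* If the prime powers greater than `4` that divide `n` are in `𝓛`, the orders of the `m`-generator
  subgroups of `G` are bounded by a function of `n`, `c` and `m`.
* If `B_{2,n}` is finite (and soluble, if `n` has more than two prime divisors), there is such a
  series for every group of exponent `n`, with a length `l` which depends on `n` only.

The proof is by compactness, from the theorem that a nontrivial group of this kind has a nontrivial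
normal subgroup of prime power exponent (library `Pool.Agent.TH69`, in particular
`Pool.Agent.TH69.OmB`).  The groups `G` of exponent `n` for which all substitutions of two elements
kill a fixed normal subgroup `K` of finite index of the free group of rank two form a class which is
closed under products and quotients, and it contains all the groups above for a suitable `K`.
-/

set_option autoImplicit false

namespace Pool.Agent.Results.MP_544bd1_al.BoundedSeries

open Pool.Agent.H32BU Pool.Agent.W629 Pool.Agent.TH69.Og Pool.Agent.TH69.Om Pool.Agent.TH69.Ok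

universe u

/-- `n ∈ 𝓛`: every group satisfying `x ^ n = 1` is locally finite. -/
def InL (n : ℕ) : Prop := ∀ (G : Type u) [Group G], (∀ x : G, x ^ n = 1) →
  ∀ S : Set G, S.Finite → Finite (Subgroup.closure S)

/-- The free Burnside group `B_{m,n}`: the free group of rank `m` modulo the normal closure of all
`n`-th powers. -/
abbrev B (m n : ℕ) : Type :=
  FreeGroup (Fin m) ⧸ Subgroup.normalClosure (Set.range fun w : FreeGroup (Fin m) => w ^ n)

/-- The exponents treated here: `n` is not divisible by `2 ^ m * (2 ^ m - 1) ^ 2` for any `m ≥ 2`,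
and there are at most two odd primes whose square divides `n`. -/
def Admissible (n : ℕ) : Prop :=
  (∀ m : ℕ, 2 ≤ m → ¬ 2 ^ m * (2 ^ m - 1) ^ 2 ∣ n) ∧
    ∃ p q : ℕ, ∀ r : ℕ, r.Prime → r ≠ 2 → r ^ 2 ∣ n → r = p ∨ r = q

/-- Every prime power greater than `4` dividing `n` is in `𝓛`. -/
def PrimePowersInL (n : ℕ) : Prop :=
  ∀ p k : ℕ, p.Prime → p ^ k ∣ n → 4 < p ^ k → InL.{u} (p ^ k)

/-- `G` satisfies `x ^ n = 1`, its two-generator subgroups are finite of order at most `c`, and they
are soluble if `n` has more than two prime divisors. -/
def Small (n c : ℕ) (G : Type u) [Group G] : Prop :=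
  (∀ x : G, x ^ n = 1) ∧
  (∀ x y : G, Finite (Subgroup.closure {x, y}) ∧ Nat.card (Subgroup.closure {x, y}) ≤ c) ∧
  (n.primeFactors.card ≤ 2 ∨ ∀ x y : G, Group.IsSolvable (Subgroup.closure {x, y}))

/-- `G` has a normal series `1 = N 0 ≤ N 1 ≤ … ≤ N l = G` such that each factor has an exponent
dividing a prime power which divides `n`. -/
def HasSeries (n l : ℕ) (G : Type u) [Group G] : Prop :=
  ∃ N : ℕ → Subgroup G, N 0 = ⊥ ∧ N l = ⊤ ∧ ∀ i, (N i).Normal ∧ N i ≤ N (i + 1) ∧
    ∃ p k : ℕ, p.Prime ∧ p ^ k ∣ n ∧ ∀ x ∈ N (i + 1), x ^ p ^ k ∈ N i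

theorem unif {n : ℕ} (T : TrS n) (hL : ∀ p : ℕ, p.Prime → LocFin (qp p n)) (c m : ℕ) :
    ∃ M : ℕ, ∀ (G : Type u) [Group G], Small n c G → ∀ a : Fin m → G,
      Finite (Subgroup.closure (Set.range a)) ∧
        Nat.card (Subgroup.closure (Set.range a)) ≤ M := by
  obtain ⟨K, hK1, hK2, hK3, hK4⟩ := exists_K.{u} c (¬ n.primeFactors.card ≤ 2)
  have hfin : ∀ (G : Type u) [Group G], VK n K G → ∀ a : Fin m → G,
      Finite (Subgroup.closure (Set.range a)) := by
    intro G _ h a
    refine lf_trS_u T hL G h.1 h.fin ?_ _ (Set.finite_range a)
    by_cases h2 : n.primeFactors.card ≤ 2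
    · exact Or.inl h2
    · obtain ⟨d, hd⟩ := hK3 h2
      exact Or.inr (h.sol hd)
  have hVK : ∀ (G : Type u) [Group G], Small n c G → VK n K G := by
    intro G _ h
    refine ⟨h.1, fun a => ?_⟩
    have e : a = ![a 0, a 1] := by
      funext k
      fin_cases k <;> rfl
    rw [e]
    exact hK4 G _ _ (h.2.1 _ _).1 (h.2.1 _ _).2 fun hh => (h.2.2.resolve_left hh) _ _
  by_contra hcon
  push Not at hcon
  have hcon' : ∀ M : ℕ, ∃ (G : Type u) (_ : Group G), VK n K G ∧ ∃ a : Fin m → G,
      M < Nat.card (Subgroup.closure (Set.range a)) := by
    intro M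
    obtain ⟨G, hG, hS, a, ha⟩ := hcon M
    exact ⟨G, hG, hVK G hS, a, ha (hfin G (hVK G hS) a)⟩
  choose G hG hV a ha using hcon'
  let b : Fin m → ∀ i, G i := fun j i => a i j
  have hP : VK n K (∀ i, G i) := VK.prod G hV
  have hf : Finite (Subgroup.closure (Set.range b)) := hfin _ hP b
  obtain ⟨M, hM⟩ : ∃ M, M = Nat.card (Subgroup.closure (Set.range b)) := ⟨_, rfl⟩
  have hmap : (Subgroup.closure (Set.range b)).map (Pi.evalMonoidHom G M) =
      Subgroup.closure (Set.range (a M)) := by
    rw [MonoidHom.map_closure, ← Set.range_comp]
    rfl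
  have h1 : Nat.card (Subgroup.closure (Set.range (a M))) ≤ M := by
    rw [← hmap]
    refine (Nat.card_le_card_of_surjective
      ((Pi.evalMonoidHom G M).subgroupMap (Subgroup.closure (Set.range b)))
      ((Pi.evalMonoidHom G M).subgroupMap_surjective _)).trans (le_of_eq hM.symm)
  exact absurd h1 (not_le.2 (ha M))

/-- Let `n ≥ 1` be admissible. (1) For each `c` there is `l` such that every group `G` with the
property `Small n c` has a normal series of length `l` such that the exponent of each factor divides
a prime power dividing `n`. (2) If the prime powers greater than `4` dividing `n` are in `𝓛`, then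
for all `c` and `m` there is `M` such that the `m`-generator subgroups of the groups with the
property `Small n c` are finite of order at most `M`. (3) If the two-generator free Burnside group
`B_{2,n}` is finite, and soluble or `n` has at most two prime divisors, then there is `l` such that
every group satisfying `x ^ n = 1` has a normal series of length `l` as in (1). -/
theorem result (n : ℕ) (hn : 1 ≤ n) (hA : Admissible n) :
    (∀ c : ℕ, ∃ l : ℕ, ∀ (G : Type u) [Group G], Small n c G → HasSeries n l G) ∧
    (PrimePowersInL.{u} n → ∀ c m : ℕ, ∃ M : ℕ, ∀ (G : Type u) [Group G], Small n c G →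
      ∀ a : Fin m → G, Finite (Subgroup.closure (Set.range a)) ∧
        Nat.card (Subgroup.closure (Set.range a)) ≤ M) ∧
    (Finite (B 2 n) → (n.primeFactors.card ≤ 2 ∨ Group.IsSolvable (B 2 n)) →
      ∃ l : ℕ, ∀ (G : Type u) [Group G], (∀ x : G, x ^ n = 1) → HasSeries n l G) := by
  have T : TrS n := trS' (by omega) ⟨hA.1, hA.2⟩
  refine ⟨fun c => ?_, fun hL c m => unif T (locfin_qp hL) c m, fun hf hs => ?_⟩
  · obtain ⟨l, hl⟩ := bounded_card.{u} (by omega) T c
    exact ⟨l, fun G _ h => series (hl G h.1 h.2.1 h.2.2)⟩
  · obtain ⟨l, hl⟩ := bounded_B.{u} (by omega) T hf hs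
    exact ⟨l, fun G _ h => series (hl G h)⟩

end Pool.Agent.Results.MP_544bd1_al.BoundedSeries
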