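import Mathlib
import Pool.Agent.W629.TwiceLF

/-!
# Groups of exponent `2 m`, `m` odd: pairs of elements of odd order and triples of involutions

Idea of the proof. Let `G` have exponent dividing `2 m`, `m` odd, and let `R` be the set of the
elements `e` with `e ^ m = 1` such that `(e z) ^ m = 1` for all `z` with `z ^ m = 1`; it is a normal
subgroup of exponent dividing `m`. If `a`, `b` are involutions and `u = (a b) ^ 2` is not in `R`,
there is `y` with `y ^ m = 1` such that `u y` has even order; in the soluble group `⟨u, y⟩` the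
element `u` acts nontrivially on some `2`-section, which is detected by an involution `t`; the
soluble group `⟨a, b, t⟩` of exponent `2 m` gives a contradiction, as the subgroup generated by three
involutions has a normal subgroup of index at most two generated by the two products `a b`, `b t`.
So all involutions commute modulo `R` (library `Pool.Agent.W629.TwiceOdd`).
-/

set_option autoImplicit false

namespace Pool.Agent.Results.MP_544bd1_al.ExponentTwiceOdd

open Pool.Agent.H32BU Pool.Agent.W629

universe u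

/-- `n ∈ 𝓛`: every group satisfying `x ^ n = 1` is locally finite. -/
def InL (n : ℕ) : Prop := ∀ (G : Type u) [Group G], (∀ x : G, x ^ n = 1) →
  ∀ S : Set G, S.Finite → Finite (Subgroup.closure S)

/-- Any two elements with trivial `m`-th power generate a soluble subgroup, and so do any three
elements with trivial square. -/
def Tame (m : ℕ) (G : Type u) [Group G] : Prop :=
  (∀ x y : G, x ^ m = 1 → y ^ m = 1 → Group.IsSolvable (Subgroup.closure {x, y})) ∧
  ∀ a b c : G, a ^ 2 = 1 → b ^ 2 = 1 → c ^ 2 = 1 → Group.IsSolvable (Subgroup.closure {a, b, c})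

/-- The largest group of exponent dividing `n` which is generated by `k` elements with trivial
`r`-th power. -/
abbrev P (k n r : ℕ) : Type :=
  FreeGroup (Fin k) ⧸ Subgroup.normalClosure
    ((Set.range fun w : FreeGroup (Fin k) => w ^ n) ∪ Set.range fun i : Fin k => FreeGroup.of i ^ r)

theorem p_exp (k n r : ℕ) (x : P k n r) : x ^ n = 1 := by
  obtain ⟨w, rfl⟩ := QuotientGroup.mk_surjective x
  rw [← QuotientGroup.mk_pow, QuotientGroup.eq_one_iff]
  exact Subgroup.subset_normalClosure (Or.inl ⟨w, rfl⟩)

theorem p_of (k n r : ℕ) (i : Fin k) : (QuotientGroup.mk (FreeGroup.of i) : P k n r) ^ r = 1 := by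
  rw [← QuotientGroup.mk_pow, QuotientGroup.eq_one_iff]
  exact Subgroup.subset_normalClosure (Or.inr ⟨i, rfl⟩)

/-- `P k n r` maps onto the subgroups generated by `k` elements with trivial `r`-th power. -/
theorem p_onto {k n r : ℕ} {G : Type u} [Group G] (hG : ∀ x : G, x ^ n = 1) (v : Fin k → G)
    (hv : ∀ i, v i ^ r = 1) : ∃ f : P k n r →* G, f.range = Subgroup.closure (Set.range v) := by
  let f0 : FreeGroup (Fin k) →* G := FreeGroup.lift v
  have hker : Subgroup.normalClosure ((Set.range fun w : FreeGroup (Fin k) => w ^ n) ∪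
      Set.range fun i : Fin k => FreeGroup.of i ^ r) ≤ f0.ker := by
    apply Subgroup.normalClosure_le_normal
    rintro _ (⟨w, rfl⟩ | ⟨i, rfl⟩)
    · rw [SetLike.mem_coe, MonoidHom.mem_ker, map_pow, hG]
    · rw [SetLike.mem_coe, MonoidHom.mem_ker, map_pow, FreeGroup.lift_apply_of, hv]
  refine ⟨QuotientGroup.lift _ f0 (fun w hw => hker hw), ?_⟩
  have e1 : (QuotientGroup.lift _ f0 (fun w hw => hker hw) : P k n r →* G).range = f0.range := by
    ext g
    constructor
    · rintro ⟨w, rfl⟩
      obtain ⟨w, rfl⟩ := QuotientGroup.mk_surjective w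
      exact ⟨w, rfl⟩
    · rintro ⟨w, rfl⟩
      exact ⟨(w : P k n r), rfl⟩
  rw [e1]
  exact FreeGroup.range_lift_eq_closure

theorem range_two {G : Type u} (x y : G) : Set.range ![x, y] = {x, y} := by
  ext g
  simp only [Set.mem_range, Fin.exists_fin_succ, Set.mem_insert_iff, Set.mem_singleton_iff]
  simp [eq_comm]

theorem range_three {G : Type u} (x y z : G) : Set.range ![x, y, z] = {x, y, z} := by
  ext g
  simp only [Set.mem_range, Fin.exists_fin_succ, Set.mem_insert_iff, Set.mem_singleton_iff]
  simp [eq_comm]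

/-- soluble `P 2 n m` and `P 3 n 2` make all groups of exponent `n` tame -/
theorem tame_of_p {n m : ℕ} (h2 : Group.IsSolvable (P 2 n m)) (h3 : Group.IsSolvable (P 3 n 2))
    (G : Type u) [Group G] (hG : ∀ x : G, x ^ n = 1) : Tame m G := by
  constructor
  · intro x y hx hy
    obtain ⟨f, hf⟩ := p_onto (k := 2) (r := m) hG ![x, y] (by
      intro i; fin_cases i
      · exact hx
      · exact hy)
    rw [range_two] at hf
    rw [← hf]
    exact Group.isSolvable_of_surjective f.rangeRestrict_surjective
  · intro a b c ha hb hc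
    obtain ⟨f, hf⟩ := p_onto (k := 3) (r := 2) hG ![a, b, c] (by
      intro i; fin_cases i
      · exact ha
      · exact hb
      · exact hc)
    rw [range_three] at hf
    rw [← hf]
    exact Group.isSolvable_of_surjective f.rangeRestrict_surjective

/-- the normal series -/
theorem series {m : ℕ} (hm : Odd m) (G : Type u) [Group G] (hG : ∀ x : G, x ^ (2 * m) = 1)
    (hT : Tame m G) : ∃ R K : Subgroup G, R.Normal ∧ K.Normal ∧ R ≤ K ∧ (∀ x ∈ R, x ^ m = 1) ∧
      (∀ x ∈ K, x ^ 2 ∈ R) ∧ ∀ x : G, x ^ m ∈ K := by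
  have hc : Nat.Coprime m 2 := Nat.coprime_two_right.2 hm
  have hG' : ∀ x : G, x ^ (m * 2) = 1 := fun x => by rw [mul_comm]; exact hG x
  have hB : Hyp m G := ⟨hT.1, hT.2⟩
  have hcomm : ∀ x y : G ⧸ Rad m G, x ^ 2 = 1 → y ^ 2 = 1 → x * y = y * x := by
    intro x y hx hy
    obtain ⟨x, rfl⟩ := QuotientGroup.mk_surjective x
    obtain ⟨y, rfl⟩ := QuotientGroup.mk_surjective y
    have h2 := sq_mem_rad_of_hyp hc hG' hB (a := x ^ m) (b := y ^ m)
      (by rw [← pow_mul, hG']) (by rw [← pow_mul, hG'])
    have h3 : ((x : G ⧸ Rad m G) * y) ^ 2 = 1 := by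
      rw [← QuotientGroup.eq_one_iff] at h2
      rw [QuotientGroup.mk_pow, QuotientGroup.mk_mul, QuotientGroup.mk_pow,
        QuotientGroup.mk_pow] at h2
      rwa [pow_odd_of_sq hc hx, pow_odd_of_sq hc hy] at h2
    exact invol_mul_comm hx hy h3
  let E : Subgroup (G ⧸ Rad m G) :=
    { carrier := {x | x ^ 2 = 1}
      one_mem' := one_pow _
      mul_mem' := by
        intro x y hx hy
        have hc : Commute x y := hcomm x y hx hy
        change (x * y) ^ 2 = 1
        rw [hc.mul_pow, hx, hy, one_mul]
      inv_mem' := by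
        intro x hx
        change x⁻¹ ^ 2 = 1
        rw [inv_pow, hx, inv_one] }
  have hE : E.Normal := ⟨fun x hx g => conj_pow_one hx⟩
  have hmem : ∀ x : G, x ∈ E.comap (QuotientGroup.mk' (Rad m G)) ↔ x ^ 2 ∈ Rad m G := by
    intro x
    rw [Subgroup.mem_comap]
    change (x : G ⧸ Rad m G) ^ 2 = 1 ↔ _
    rw [← QuotientGroup.mk_pow, QuotientGroup.eq_one_iff]
  refine ⟨Rad m G, E.comap (QuotientGroup.mk' (Rad m G)), inferInstance, hE.comap _, ?_,
    fun x hx => hx.1, fun x hx => (hmem x).1 hx, fun x => ?_⟩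
  · intro x hx
    rw [hmem]
    exact pow_mem hx 2
  · rw [hmem, ← pow_mul, hG']
    exact one_mem _

/-- local finiteness, in all universes -/
theorem lf_tame {m : ℕ} (hm : Odd m) (hL : InL.{u} m) (G : Type u) [Group G]
    (hG : ∀ x : G, x ^ (2 * m) = 1) (hT : Tame m G) (S : Set G) (hS : S.Finite) :
    Finite (Subgroup.closure S) := by
  refine finite_closure_u S hS fun Q _ f hf => ?_
  have hQ : ∀ x : Q, x ^ (m * 2) = 1 := fun x => hf (by rw [map_pow, map_one, mul_comm]; exact hG _)
  refine lf_twice (Nat.coprime_two_right.2 hm) ((inL_iff x_LFD _).1 hL) Q hQ ⟨?_, ?_⟩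
  · intro x y hx hy
    have h := hT.1 (f x) (f y) (by rw [← map_pow, hx, map_one]) (by rw [← map_pow, hy, map_one])
    have e : f '' {x, y} = {f x, f y} := Set.image_pair _ _ _
    rw [← e, ← MonoidHom.map_closure] at h
    exact Group.isSolvable_of_surjective
      (f := ((Subgroup.closure {x, y}).equivMapOfInjective f hf).symm.toMonoidHom)
      ((Subgroup.closure {x, y}).equivMapOfInjective f hf).symm.surjective
  · intro a b t ha hb ht
    have h := hT.2 (f a) (f b) (f t) (by rw [← map_pow, ha, map_one])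
      (by rw [← map_pow, hb, map_one]) (by rw [← map_pow, ht, map_one])
    have e : f '' {a, b, t} = {f a, f b, f t} := by
      rw [Set.image_insert_eq, Set.image_pair]
    rw [← e, ← MonoidHom.map_closure] at h
    exact Group.isSolvable_of_surjective
      (f := ((Subgroup.closure {a, b, t}).equivMapOfInjective f hf).symm.toMonoidHom)
      ((Subgroup.closure {a, b, t}).equivMapOfInjective f hf).symm.surjective

theorem inL_of_dvd {n d : ℕ} (h : d ∣ n) (hL : InL.{u} n) : InL.{u} d := by
  obtain ⟨c, rfl⟩ := h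
  exact fun G _ hG => hL G fun x => by rw [pow_mul, hG, one_pow]

theorem p_finite {k n r : ℕ} (hL : InL.{u} n) : Finite (P k n r) := by
  classical
  have h := (inL_iff x_LFD _).1 hL (P k n r) (p_exp k n r)
    (Finset.univ.image fun i : Fin k => (QuotientGroup.mk (FreeGroup.of i) : P k n r))
  have hgen : Subgroup.closure ((Finset.univ.image fun i : Fin k =>
      (QuotientGroup.mk (FreeGroup.of i) : P k n r) : Finset (P k n r)) : Set (P k n r)) = ⊤ := by
    rw [eq_top_iff]
    rintro x -
    obtain ⟨w, rfl⟩ := QuotientGroup.mk_surjective x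
    induction w using FreeGroup.induction_on with
    | C1 => exact one_mem _
    | of i => exact Subgroup.subset_closure (by simp)
    | inv_of i hi => exact inv_mem hi
    | mul a b ha hb => exact mul_mem ha hb
  rw [hgen] at h
  exact Finite.of_equiv _ (Subgroup.topEquiv (G := P k n r)).toEquiv

/-- (1) Let `m` be odd (arbitrarily large) and let `G` be a group of exponent dividing `2 m` in which
any two elements with trivial `m`-th power, and any three elements with trivial square, generate a
soluble subgroup. Then `G` has normal subgroups `R ≤ K` such that `R` and `G / K` have exponent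
dividing `m` and `K / R` has exponent dividing `2`.
(2) If moreover `m ∈ 𝓛`, then `G` is locally finite.
(3) Let `m ∈ 𝓛` be odd. If the largest group of exponent dividing `2 m` generated by two elements
with trivial `m`-th power and the largest one generated by three elements with trivial square are
soluble, then `2 m ∈ 𝓛`.
(4) Let `p` be an odd prime. Then `2 p ^ k ∈ 𝓛` if and only if `p ^ k ∈ 𝓛` and these two groups are
finite, for `m = p ^ k`.
(5) Let `p` be an odd prime, `p ^ k ∈ 𝓛`. A group of exponent dividing `2 p ^ k` is locally finite if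
any two elements with trivial `p ^ k`-th power generate a finite subgroup, and any three elements
with trivial square do. -/
theorem result :
    (∀ m : ℕ, Odd m → ∀ (G : Type u) [Group G], (∀ x : G, x ^ (2 * m) = 1) → Tame m G →
      ∃ R K : Subgroup G, R.Normal ∧ K.Normal ∧ R ≤ K ∧ (∀ x ∈ R, x ^ m = 1) ∧
        (∀ x ∈ K, x ^ 2 ∈ R) ∧ ∀ x : G, x ^ m ∈ K) ∧
    (∀ m : ℕ, Odd m → InL.{u} m → ∀ (G : Type u) [Group G], (∀ x : G, x ^ (2 * m) = 1) →
      Tame m G → ∀ S : Set G, S.Finite → Finite (Subgroup.closure S)) ∧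
    (∀ m : ℕ, Odd m → InL.{u} m → Group.IsSolvable (P 2 (2 * m) m) →
      Group.IsSolvable (P 3 (2 * m) 2) → InL.{u} (2 * m)) ∧
    (∀ p k : ℕ, p.Prime → p ≠ 2 → (InL.{u} (2 * p ^ k) ↔
      InL.{u} (p ^ k) ∧ Finite (P 2 (2 * p ^ k) (p ^ k)) ∧ Finite (P 3 (2 * p ^ k) 2))) ∧
    (∀ p k : ℕ, p.Prime → p ≠ 2 → InL.{u} (p ^ k) →
      ∀ (G : Type u) [Group G], (∀ x : G, x ^ (2 * p ^ k) = 1) →
      (∀ x y : G, x ^ p ^ k = 1 → y ^ p ^ k = 1 → Finite (Subgroup.closure {x, y})) →
      (∀ a b c : G, a ^ 2 = 1 → b ^ 2 = 1 → c ^ 2 = 1 → Finite (Subgroup.closure {a, b, c})) →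
      ∀ S : Set G, S.Finite → Finite (Subgroup.closure S)) := by
  have h3 : ∀ m : ℕ, Odd m → InL.{u} m → Group.IsSolvable (P 2 (2 * m) m) →
      Group.IsSolvable (P 3 (2 * m) 2) → InL.{u} (2 * m) := by
    intro m hm hL h2 h3 G _ hG S hS
    exact lf_tame hm hL G hG (tame_of_p h2 h3 G hG) S hS
  refine ⟨fun m hm G _ hG hT => series hm G hG hT,
    fun m hm hL G _ hG hT S hS => lf_tame hm hL G hG hT S hS, h3, ?_, ?_⟩
  · intro p k hp hp2
    have hodd : Odd (p ^ k) := (hp.odd_of_ne_two hp2).pow
    constructor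
    · intro h
      exact ⟨inL_of_dvd (dvd_mul_left _ _) h, p_finite h, p_finite h⟩
    · rintro ⟨h1, h2, h4⟩
      refine h3 _ hodd h1 ?_ ?_
      · exact solv_of_exp 2 p 1 k Nat.prime_two hp (fun x => by rw [pow_one]; exact p_exp _ _ _ x)
      · exact solv_of_exp 2 p 1 k Nat.prime_two hp (fun x => by rw [pow_one]; exact p_exp _ _ _ x)
  · intro p k hp hp2 hL G _ hG h2 h4 S hS
    exact group_twice_pp hp hp2 hL G hG h2 h4 S hS

end Pool.Agent.Results.MP_544bd1_al.ExponentTwiceOdd
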