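import Mathlib
import Pool.Agent.Y552.BU.E

/-!
# Normal series from three-generator subgroups, for all exponents

Let `G` be a group whose three-generator subgroups are finite and soluble, and whose two-generator
subgroups have Fitting height at most `h`; `G` may be infinite, of unbounded exponent, and infinitely
many primes may occur.  It is shown that `G` has a normal series of length `h` each factor of which
is the direct product of normal `p`-subgroups.  So `G` is locally finite if and only if the
`p`-groups among the sections of `G` are.  If `G` has exponent dividing `n` this gives a normal series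
of length `h * ω(n)` whose factors have exponents dividing prime powers that divide `n`; no
assumption is made on `n`, and no prime power is assumed to belong to `𝓛`.  In particular, if
`B_{3,n}` is finite and soluble of Fitting height `h`, every group of exponent `n` has such a series.

Outline of the proof.  For a subgroup `A` let `N(A)` be the subgroup generated by the commutators of
elements of `A` of coprime orders, and `D_0(A) = A`, `D_{m+1}(A) = N(D_m(A))`; for finite soluble `A`
this is the lower Fitting series, and its length is the maximum of the lengths for the two-generator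
subgroups of `A` (`Pool.Agent.H32BU`, theorem `x_TWO`).  Let `N_p` be the set of the `p`-elements
`e` of `G` such that `⟨e, y⟩` is a `p`-group for all `p`-elements `y`.  It generates a normal
`p`-subgroup `O_p`.  Suppose that `D_{m+1}(⟨a, x⟩) = 1` for all `a` and `x`, let `e` be in
`D_m(⟨a, x⟩)` and a `p`-element, and `y` any `p`-element.  Then `D_{m+1}(⟨a, x, y⟩) = 1`, so that
`D_m(⟨a, x, y⟩)` is nilpotent; its Sylow `p`-subgroup is normal in `⟨a, x, y⟩` and contains `e`, and
`⟨e, y⟩` is a `p`-group.  Hence `D_m(⟨a, x⟩)` is contained in the product `M` of the groups `O_p`,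
and `D_m(⟨a, x⟩) = 1` for all `a` and `x` in `G / M`.  The starting result `ThreeGenerators` uses
this argument for locally finite `M` only, and the series is not in its statement.
-/

set_option autoImplicit false

namespace Pool.Agent.Results.MP_544bd1_al.ThreeGeneratorSeries

open Pool.Agent.Y552.BU

universe u

/-- The free Burnside group `B_{m,n}`: the free group of rank `m` modulo the normal closure of all
`n`-th powers. -/
abbrev B (m n : ℕ) : Type :=
  FreeGroup (Fin m) ⧸ Subgroup.normalClosure (Set.range fun w : FreeGroup (Fin m) => w ^ n)

/-- The relatively free group of rank three of the variety of groups defined by a set `L` of laws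
(words in the free group of countable rank). -/
abbrev Free3 (L : Set (FreeGroup ℕ)) : Type :=
  FreeGroup (Fin 3) ⧸ Subgroup.normalClosure
    {u : FreeGroup (Fin 3) | ∃ f : FreeGroup ℕ →* FreeGroup (Fin 3), ∃ w ∈ L, u = f w}

/-- The group `G` is in the variety defined by the laws `L`. -/
def InVariety (L : Set (FreeGroup ℕ)) (G : Type u) [Group G] : Prop :=
  ∀ f : FreeGroup ℕ →* G, ∀ w ∈ L, f w = 1

/-- `G` is locally finite. -/
def LocallyFinite (G : Type u) [Group G] : Prop :=
  ∀ S : Set G, S.Finite → Finite (Subgroup.closure S)

/-- `E` is soluble of Fitting height at most `h`: it is trivial if `h = 0`, and otherwise it has a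
nilpotent normal subgroup `N` such that `E ⧸ N` is soluble of Fitting height at most `h - 1`. -/
abbrev HeightAtMost (h : ℕ) (E : Type u) [Group E] : Prop := FH h E

/-- `G` has a normal series `1 = N 0 ≤ N 1 ≤ … ≤ N h = G` such that each factor `N (i + 1) / N i` is
the product of normal subgroups `P p / N i`, `p` prime, where each element of `P p / N i` has
`p`-power order; so it is the direct product of its Sylow subgroups. -/
def HasPSeries (h : ℕ) (G : Type u) [Group G] : Prop :=
  ∃ N : ℕ → Subgroup G, N 0 = ⊥ ∧ N h = ⊤ ∧ ∀ i, (N i).Normal ∧ N i ≤ N (i + 1) ∧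
    ∃ P : ℕ → Subgroup G, (∀ p, p.Prime → (P p).Normal ∧ N i ≤ P p ∧
      ∀ x ∈ P p, ∃ k : ℕ, x ^ p ^ k ∈ N i) ∧ N (i + 1) = ⨆ p : {p : ℕ // p.Prime}, P p

/-- `G` has a normal series `1 = N 0 ≤ N 1 ≤ … ≤ N l = G` such that each factor has an exponent
dividing a prime power which divides `n`. -/
def HasSeries (n l : ℕ) (G : Type u) [Group G] : Prop :=
  ∃ N : ℕ → Subgroup G, N 0 = ⊥ ∧ N l = ⊤ ∧ ∀ i, (N i).Normal ∧ N i ≤ N (i + 1) ∧
    ∃ p k : ℕ, p.Prime ∧ p ^ k ∣ n ∧ ∀ x ∈ N (i + 1), x ^ p ^ k ∈ N i

/-- (1) Let `G` be a group whose three-generator subgroups are finite and soluble and whose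
two-generator subgroups have Fitting height at most `h`. Then `G` has a normal series of length `h`
whose factors are direct products of `p`-groups, and `G` is locally finite if and only if all
homomorphic images of subgroups of `G` which are `p`-groups, `p` prime, are locally finite.
(2) Let `n ≥ 1`, and let `G` be a group with `x ^ n = 1` whose three-generator subgroups are finite,
and soluble if `n` has more than two prime divisors, and whose two-generator subgroups have Fitting
height at most `h`. Then `G` has a normal series of length `h * ω(n)` whose factors have exponents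
dividing prime powers that divide `n`, and `G` is locally finite if and only if all homomorphic
images of subgroups of `G` whose exponent divides a prime power `> 4` dividing `n` are. (3) Let
`n ≥ 1` be such that `B_{3,n}` is finite, and soluble if `n` has more than two prime divisors. Then
`B_{3,n}` has Fitting height at most `h` for some `h`, and then every group with `x ^ n = 1` has a
normal series of length `h * ω(n)` as in (2). (4) Let the relatively free group of rank three of a
variety of groups be finite and soluble of Fitting height at most `h`. Then all groups in the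
variety have a series of length `h` as in (1), and they are locally finite if and only if the
`p`-groups in the variety are, `p` prime. -/
theorem result :
    (∀ (h : ℕ) (G : Type u) [Group G],
      (∀ x y z : G, Finite (Subgroup.closure {x, y, z}) ∧
        Group.IsSolvable (Subgroup.closure {x, y, z})) →
      (∀ x y : G, HeightAtMost h (Subgroup.closure {x, y})) →
      HasPSeries h G ∧
      (LocallyFinite G ↔ ∀ p : ℕ, p.Prime → ∀ (A : Subgroup G) (H : Type u) [Group H] (f : A →* H),
        Function.Surjective f → (∀ x : H, ∃ k : ℕ, x ^ p ^ k = 1) → LocallyFinite H)) ∧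
    (∀ n : ℕ, 1 ≤ n → ∀ (h : ℕ) (G : Type u) [Group G], (∀ x : G, x ^ n = 1) →
      (∀ x y z : G, Finite (Subgroup.closure {x, y, z})) →
      (n.primeFactors.card ≤ 2 ∨ ∀ x y z : G, Group.IsSolvable (Subgroup.closure {x, y, z})) →
      (∀ x y : G, HeightAtMost h (Subgroup.closure {x, y})) →
      HasSeries n (h * n.primeFactors.card) G ∧
      (LocallyFinite G ↔ ∀ p k : ℕ, p.Prime → p ^ k ∣ n → 4 < p ^ k →
        ∀ (A : Subgroup G) (H : Type u) [Group H] (f : A →* H),
          Function.Surjective f → (∀ x : H, x ^ p ^ k = 1) → LocallyFinite H)) ∧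
    (∀ n : ℕ, 1 ≤ n → Finite (B 3 n) →
      (n.primeFactors.card ≤ 2 ∨ Group.IsSolvable (B 3 n)) →
      (∃ h, HeightAtMost h (B 3 n)) ∧
      ∀ h, HeightAtMost h (B 3 n) → ∀ (G : Type u) [Group G], (∀ x : G, x ^ n = 1) →
        HasSeries n (h * n.primeFactors.card) G) ∧
    (∀ (L : Set (FreeGroup ℕ)) (h : ℕ), Finite (Free3 L) → HeightAtMost h (Free3 L) →
      (∀ (G : Type u) [Group G], InVariety L G → HasPSeries h G) ∧
      ((∀ (G : Type u) [Group G], InVariety L G → LocallyFinite G) ↔
        ∀ p : ℕ, p.Prime → ∀ (G : Type u) [Group G], InVariety L G →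
          (∀ x : G, ∃ k : ℕ, x ^ p ^ k = 1) → LocallyFinite G)) := by
  have hsec : ∀ (G : Type u) [Group G], LocallyFinite G → ∀ (A : Subgroup G) (H : Type u)
      [Group H] (f : A →* H), Function.Surjective f → LocallyFinite H := by
    intro G _ hG A H _ f hf
    exact LFu.of_surj f hf (LFu.of_inj A.subtype A.subtype_injective hG)
  have hht : ∀ (h : ℕ) (G : Type u) [Group G], FS3 G →
      (∀ x y : G, HeightAtMost h (Subgroup.closure {x, y})) → (US G h).1 = ⊤ := by
    intro h G _ h3 h2
    refine US_eq_top h3 h fun a x => DDu_sub _ (fun t _ => h3.tor t) h (h2 a x)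
  refine ⟨?_, ?_, ?_, ?_⟩
  · intro h G _ h3 h2
    have ht := hht h G h3 h2
    refine ⟨pseries_of_top h ht, fun hL p _ A H _ f hf _ => hsec G hL A H f hf, fun hL => ?_⟩
    exact lf_of_top hL h ht
  · intro n hn h G _ hG h3 hs h2
    have hs' : FS3 G := fun x y z => ⟨h3 x y z, by
      rcases hs with hs | hs
      · exact solvable_of_two hn hs hG _ (h3 x y z)
      · exact hs x y z⟩
    have ht := hht h G hs' h2
    refine ⟨hasSeries_of_top (by omega) hG h ht,
      fun hL p k _ _ _ A H _ f hf _ => hsec G hL A H f hf, fun hL => ?_⟩
    exact lf_of_top (plf_of (by omega) hG hL) h ht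
  · intro n hn hf hs
    have hs' : Group.IsSolvable (B 3 n) := by
      rcases hs with hs | hs
      · have h1 := solvable_of_two hn hs (Pool.Agent.H32BU.x_LFD.2.2.2 3 n)
          (⊤ : Subgroup (B 3 n)) inferInstance
        exact Group.isSolvable_of_surjective (f := Subgroup.subtype (⊤ : Subgroup (B 3 n)))
          (fun x => ⟨⟨x, trivial⟩, rfl⟩)
      · exact hs
    refine ⟨exists_FH hs', fun h hF G _ hG => ?_⟩
    have h1 := of_image hs' h (DDu_of_FH h _ (fun x => isOfFinOrder_of_finite x) hF)
      (exists_hom_B n G hG)
    exact hasSeries_of_top (by omega) hG h h1.2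
  · intro L h hf hF
    have h1 := variety.{u} L hf h hF
    refine ⟨fun G _ hG => pseries_of_top h (h1 G hG).2, fun hL p _ G _ hG _ => hL G hG,
      fun hL G _ hG => ?_⟩
    refine lf_of_top (fun p hp A H _ f hf' hx => ?_) h (h1 G hG).2
    exact hL p hp H (obeys_surj_u f hf' (obeys_inj_u A.subtype A.subtype_injective hG)) hx

end Pool.Agent.Results.MP_544bd1_al.ThreeGeneratorSeries
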