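import Mathlib
import Pool.Agent.Y50.FE.Word

/-!
# Three generators and one word decide local finiteness for exponent five

Proof in outline.  Let `G` have exponent `5` and finite 3-generator subgroups, and suppose that `G`
has no nontrivial locally finite normal subgroup; it is shown that `G = 1`.

(P) If `[h, c, c] = 1` for all `h`, then the conjugates of `c` commute, so `c = 1`.

(C) If `[g, z, z, z] = 1` for all `g`, then `z = 1`.  Let `F = ⟨z, g, h⟩`, and let `H_n` be the
smallest N-series of `F` (`[H_i, H_j] ≤ H_(i+j)`) with `z ∈ H_13` and `g, h ∈ H_1`.  Its Lie ring has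
characteristic `5`, satisfies the linearised fourth Engel identity (this is proved by doubling the
N-series four times and expanding `(x - 1) ^ 4`), and `Z ^ 3 = 0` for the class `Z` of `z`.  A
certificate of linear algebra over `F_5`, checked by the kernel, shows that all products in the
classes of `z, g, h` vanish which have more than three factors `Z` or more than six equal factors.
As `F` is nilpotent, this gives `H_52 = 1`, so that `[h, c, c] = 1` for `c = [g, z, z]`; by (P),
`c = 1` for all `g`, and then `z = 1` by (P).

(B) Let `z = [y, x, x, x]`.  In `F = ⟨x, y, g⟩`, with `x` of weight `13`, a second certificate shows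
that all products with more than six equal factors vanish; so `H_91 = 1` and `[g, z, z, z] = 1`.
Hence `z = 1` by (C), for all `y`, and then `x = 1` by (C).

Similarly `[g, c, c] = 1` for `c = [y, x, x, x, x]` in finite groups of exponent `5`, and by (P) this
is sufficient to reduce to 4-Engel groups.  The assertion for the other exponents follows by the
earlier result `ThreeGenerators`.
-/

set_option autoImplicit false

namespace Pool.Agent.Results.MP_544bd1_al.ThreeGeneratorsFive

open scoped commutatorElement

universe u

/-- `n ∈ 𝓛`: every group satisfying `x ^ n = 1` is locally finite. -/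
def InL (n : ℕ) : Prop := ∀ (G : Type u) [Group G], (∀ x : G, x ^ n = 1) →
  ∀ S : Set G, S.Finite → Finite (Subgroup.closure S)

/-- The free Burnside group `B_{m,n}`: the free group of rank `m` modulo the normal closure of all
`n`-th powers. -/
abbrev B (m n : ℕ) : Type :=
  FreeGroup (Fin m) ⧸ Subgroup.normalClosure (Set.range fun w : FreeGroup (Fin m) => w ^ n)

/-- The generators of `B_{3,n}`. -/
def gen (n : ℕ) (i : Fin 3) : B 3 n := QuotientGroup.mk (FreeGroup.of i)

/-- The commutator `[y, x, x, x, x]`. -/
def engel {G : Type u} [Group G] (x y : G) : G := ⁅⁅⁅⁅y, x⁆, x⁆, x⁆, x⁆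

/-- The normal subgroup generated by all `[y, x, x, x, x]`; the quotient by it is the largest 4-Engel
quotient. -/
def EngelSubgroup (G : Type u) [Group G] : Subgroup G :=
  Subgroup.normalClosure {w | ∃ x y : G, w = engel x y}

/-- (1) A group `G` of exponent dividing `5` is locally finite if and only if `[z, c, c] = 1` for all
`z ∈ G` and all `c = [y, x, x, x, x]`, `x, y ∈ G`, and the largest 4-Engel quotients of the
3-generator subgroups of `G` are finite; in particular, `G` is locally finite if its 3-generator
subgroups are finite. (2) `5 ∈ 𝓛` if and only if `[g₂, c, c] = 1` in `B_{3,5}`, where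
`c = [g₁, g₀, g₀, g₀, g₀]`, and the largest 4-Engel quotient of `B_{3,5}` is finite.
(3) If `n` is one of `5`, `10`, `15`, `20`, then `n ∈ 𝓛` if and only if `B_{3,n}` is finite. More
generally this holds for all `n ≥ 1` such that all prime powers greater than `5` dividing `n` are in
`𝓛` and such that `n` has at most two prime divisors or `B_{3,n}` is soluble. -/
theorem result :
    (∀ (G : Type u) [Group G], (∀ x : G, x ^ 5 = 1) →
      ((∀ S : Set G, S.Finite → Finite (Subgroup.closure S)) ↔
        (∀ x y z : G, ⁅⁅z, engel x y⁆, engel x y⁆ = 1) ∧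
        ∀ x y z : G, Finite (Subgroup.closure ({x, y, z} : Set G) ⧸
          EngelSubgroup (Subgroup.closure ({x, y, z} : Set G)))) ∧
      ((∀ x y z : G, Finite (Subgroup.closure {x, y, z})) →
        ∀ S : Set G, S.Finite → Finite (Subgroup.closure S))) ∧
    (InL.{u} 5 ↔ ⁅⁅gen 5 2, engel (gen 5 0) (gen 5 1)⁆, engel (gen 5 0) (gen 5 1)⁆ = 1 ∧
      Finite (B 3 5 ⧸ EngelSubgroup (B 3 5))) ∧
    (∀ n : ℕ, n = 5 ∨ n = 10 ∨ n = 15 ∨ n = 20 → (InL.{u} n ↔ Finite (B 3 n))) ∧
    ∀ n : ℕ, 1 ≤ n → (∀ p k : ℕ, p.Prime → p ^ k ∣ n → 5 < p ^ k → InL.{u} (p ^ k)) →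
      (n.primeFactors.card ≤ 2 ∨ Group.IsSolvable (B 3 n)) → (InL.{u} n ↔ Finite (B 3 n)) :=
  ⟨fun G _ h5 => ⟨Pool.Agent.Y50.FE.word_iff G h5, fun h3 => Pool.Agent.Y50.FE.main5_u G h5 h3⟩,
    Pool.Agent.Y50.FE.inL_word, fun n hn => Pool.Agent.Y50.FE.inL_small n hn,
    fun n hn hq hs => Pool.Agent.Y50.FE.inL_iff_three n hn hs hq⟩

end Pool.Agent.Results.MP_544bd1_al.ThreeGeneratorsFive
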